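import Pool.Agent.H76.TP.Fin

/-!
Rays in a graph of maximal degree two with at most `K` infinite components: many pairs of
starting points lie on the ray of the other point.
-/

namespace H97.TP

open H76.TP

theorem card_sq_le_of_maps {α β : Type*} [DecidableEq β] (S : Finset α) (f : α → β)
    (T : Finset β) (hT : ∀ i ∈ S, f i ∈ T) :
    S.card ^ 2 ≤ T.card * ((S ×ˢ S).filter (fun p => f p.1 = f p.2)).card := by
  have h1 : S.card = ∑ b ∈ T, (S.filter (fun i => f i = b)).card :=
    Finset.card_eq_sum_card_fiberwise hT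
  have h2 : ((S ×ˢ S).filter (fun p => f p.1 = f p.2)).card =
      ∑ b ∈ T, (S.filter (fun i => f i = b)).card ^ 2 := by
    rw [Finset.card_eq_sum_card_fiberwise (f := fun p : α × α => f p.1) (t := T)]
    · refine Finset.sum_congr rfl fun b _ => ?_
      rw [sq, ← Finset.card_product]
      congr 1
      ext ⟨i, j⟩
      simp only [Finset.mem_filter, Finset.mem_product]
      constructor
      · rintro ⟨⟨⟨h1, h2⟩, h3⟩, h4⟩
        exact ⟨⟨h1, h4⟩, h2, h3 ▸ h4⟩
      · rintro ⟨⟨h1, h4⟩, h2, h3⟩
        exact ⟨⟨⟨h1, h2⟩, h4.trans h3.symm⟩, h4⟩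
    · intro p hp
      exact hT _ (Finset.mem_product.1 (Finset.mem_filter.1 hp).1).1
  rw [h2, h1]
  exact sq_sum_le_card_mul_sum_sq

variable {V : Type*} {G : SimpleGraph V}

/-- rays starting at different points: the number of pairs of which one contains the start of the
other is at least a constant times the square of the number of rays. -/
theorem card_sq_le_pairs {α : Type*} (hG : Deg2 G) (K : ℕ)
    (hK : {C : G.ConnectedComponent | C.supp.Infinite}.encard ≤ K) (S : Finset α)
    (r : α → ℕ → V) (hr : ∀ i ∈ S, IsRay G (r i)) [DecidablePred fun p : α × α =>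
      r p.1 0 ∈ Set.range (r p.2)] :
    S.card ^ 2 ≤ 4 * K * ((S ×ˢ S).filter (fun p => r p.1 0 ∈ Set.range (r p.2))).card := by
  classical
  rcases S.eq_empty_or_nonempty with rfl | ⟨i0, hi0⟩
  · simp
  have : Nonempty α := ⟨i0⟩
  set comp : α → G.ConnectedComponent := fun i => G.connectedComponentMk (r i 0) with hcomp
  set T : Finset G.ConnectedComponent := S.image comp with hTdef
  have hTK : T.card ≤ K := by
    have h1 : (T : Set G.ConnectedComponent) ⊆ {C : G.ConnectedComponent | C.supp.Infinite} := by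
      intro C hC
      obtain ⟨i, hi, rfl⟩ := Finset.mem_image.1 (Finset.mem_coe.1 hC)
      exact (hr i hi).infinite
    have h2 := (Set.encard_le_encard h1).trans hK
    rw [Set.encard_coe_eq_coe_finsetCard] at h2
    exact_mod_cast h2
  -- representatives
  have hrep : ∀ C ∈ T, ∃ i ∈ S, comp i = C := fun C hC => Finset.mem_image.1 hC
  choose! rep hrepS hrepC using hrep
  set f : α → G.ConnectedComponent × Bool := fun i =>
    (comp i, decide (Same (r (rep (comp i))) (r i))) with hf
  have hsame : ∀ i ∈ S, ∀ j ∈ S, f i = f j → Same (r i) (r j) := by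
    intro i hi j hj hij
    have hcij : comp i = comp j := congrArg Prod.fst hij
    have hbij : (Same (r (rep (comp i))) (r i)) ↔ (Same (r (rep (comp j))) (r j)) := by
      have := congrArg Prod.snd hij
      simpa [hf] using this
    have hiT : comp i ∈ T := Finset.mem_image_of_mem _ hi
    by_cases hb : Same (r (rep (comp i))) (r i)
    · have hb' := hbij.1 hb
      rw [← hcij] at hb'
      exact hb.symm.trans hb'
    · have hb' : ¬ Same (r (rep (comp i))) (r j) := by
        intro h
        apply hb
        rw [hcij] at h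
        exact hbij.2 h
      have h12 : G.Reachable (r (rep (comp i)) 0) (r i 0) := reach_of_eq (hrepC _ hiT)
      have h13 : G.Reachable (r (rep (comp i)) 0) (r j 0) :=
        reach_of_eq ((hrepC _ hiT).trans hcij)
      rcases same_of_three hG (hr _ (hrepS _ hiT)) (hr i hi) (hr j hj) h12 h13 with h | h | h
      · exact absurd h hb
      · exact absurd h hb'
      · exact h
  have h1 := card_sq_le_of_maps S f (T ×ˢ Finset.univ) (by
    intro i hi
    exact Finset.mem_product.2 ⟨Finset.mem_image_of_mem _ hi, Finset.mem_univ _⟩)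
  have hTc : (T ×ˢ (Finset.univ : Finset Bool)).card ≤ 2 * K := by
    rw [Finset.card_product, Finset.card_univ, Fintype.card_bool]
    omega
  have h2 : ((S ×ˢ S).filter (fun p => f p.1 = f p.2)).card ≤
      2 * ((S ×ˢ S).filter (fun p => r p.1 0 ∈ Set.range (r p.2))).card := by
    have hsub : (S ×ˢ S).filter (fun p => f p.1 = f p.2) ⊆
        (S ×ˢ S).filter (fun p => r p.1 0 ∈ Set.range (r p.2)) ∪
        ((S ×ˢ S).filter (fun p => r p.1 0 ∈ Set.range (r p.2))).image Prod.swap := by
      rintro ⟨i, j⟩ hij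
      obtain ⟨hij1, hij2⟩ := Finset.mem_filter.1 hij
      obtain ⟨hi, hj⟩ := Finset.mem_product.1 hij1
      rcases start_mem hG (hr i hi) (hr j hj) (hsame i hi j hj hij2) with ⟨b, hb⟩ | ⟨a, ha⟩
      · exact Finset.mem_union_left _ (Finset.mem_filter.2 ⟨hij1, ⟨b, hb.symm⟩⟩)
      · refine Finset.mem_union_right _ (Finset.mem_image.2 ⟨(j, i), ?_, rfl⟩)
        exact Finset.mem_filter.2 ⟨Finset.mem_product.2 ⟨hj, hi⟩, ⟨a, ha.symm⟩⟩
    refine (Finset.card_le_card hsub).trans ((Finset.card_union_le _ _).trans ?_)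
    have := Finset.card_image_le
      (s := (S ×ˢ S).filter (fun p => r p.1 0 ∈ Set.range (r p.2))) (f := Prod.swap)
    omega
  calc S.card ^ 2 ≤ _ := h1
    _ ≤ (2 * K) * (2 * ((S ×ˢ S).filter (fun p => r p.1 0 ∈ Set.range (r p.2))).card) :=
      Nat.mul_le_mul hTc h2
    _ = _ := by ring

end H97.TP
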