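import Mathlib

/-!
An event whose frequency along windows has a second moment of smaller order is a null event.
-/

open MeasureTheory Filter

namespace H97.TP

theorem prob_zero {Ω Γ : Type*} [MeasurableSpace Ω] (P : Measure Ω) [IsProbabilityMeasure P]
    (sh : Γ → Ω → Ω) (hsh : ∀ g, MeasurePreserving (sh g) P P) (A : Set Ω) (hA : MeasurableSet A)
    (F : ℕ → Finset Γ) (hF : Tendsto (fun N => (F N).card) atTop atTop) (H : ℕ → Ω → ℝ)
    (hHm : ∀ N, Measurable (H N)) (C : ℝ) (hH0 : ∀ N ω, 0 ≤ H N ω)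
    (hHb : ∀ N ω, H N ω ≤ C * (F N).card)
    (hlim : ∀ ω, Tendsto (fun N => H N ω / (F N).card) atTop (nhds 0)) (M : ℝ)
    (hineq : ∀ N ω, (∑ j ∈ F N, A.indicator (fun _ => (1 : ℝ)) (sh j ω)) ^ 2 ≤
      M * ∑ j ∈ F N, H N (sh j ω)) : P A = 0 := by
  set p : ℝ := P.real A with hp
  -- integrability
  have hi1 : Integrable (A.indicator fun _ => (1 : ℝ)) P :=
    (integrable_const (1 : ℝ)).indicator hA
  have hbd : ∀ N ω, ‖H N ω‖ ≤ C * (F N).card := by
    intro N ω
    rw [Real.norm_eq_abs, abs_of_nonneg (hH0 N ω)]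
    exact hHb N ω
  have hiH : ∀ N, Integrable (H N) P := fun N =>
    Integrable.of_bound (hHm N).aestronglyMeasurable _ (Eventually.of_forall (hbd N))
  have hc1 : ∀ j, Integrable (fun ω => A.indicator (fun _ => (1 : ℝ)) (sh j ω)) P :=
    fun j => (hsh j).integrable_comp_of_integrable hi1
  have hcH : ∀ N j, Integrable (fun ω => H N (sh j ω)) P :=
    fun N j => (hsh j).integrable_comp_of_integrable (hiH N)
  have e1 : ∀ j, ∫ ω, A.indicator (fun _ => (1 : ℝ)) (sh j ω) ∂P = p := by
    intro j
    have h1 := integral_map (μ := P) (φ := sh j) (hsh j).measurable.aemeasurable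
      (f := A.indicator fun _ => (1 : ℝ)) (by rw [(hsh j).map_eq]; exact hi1.1)
    rw [← h1, (hsh j).map_eq, integral_indicator hA]
    simp [hp]
  have e2 : ∀ N j, ∫ ω, H N (sh j ω) ∂P = ∫ ω, H N ω ∂P := by
    intro N j
    have h1 := integral_map (μ := P) (φ := sh j) (hsh j).measurable.aemeasurable
      (f := H N) (by rw [(hsh j).map_eq]; exact (hiH N).1)
    rw [← h1, (hsh j).map_eq]
  have hmain : ∀ N, 0 < (F N).card → p ^ 2 ≤ M * ∫ ω, H N ω / (F N).card ∂P := by
    intro N hN
    have hN' : (0 : ℝ) < (F N).card := by exact_mod_cast hN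
    set n : ℝ := ((F N).card : ℝ) with hn
    have hpt : ∀ ω, 2 * (n * p) * (∑ j ∈ F N, A.indicator (fun _ => (1 : ℝ)) (sh j ω)) -
        (n * p) ^ 2 ≤ M * ∑ j ∈ F N, H N (sh j ω) := by
      intro ω
      have h1 := hineq N ω
      nlinarith [sq_nonneg ((∑ j ∈ F N, A.indicator (fun _ => (1 : ℝ)) (sh j ω)) - n * p)]
    have hint := integral_mono (μ := P)
      (((integrable_finsetSum _ fun j _ => hc1 j).const_mul (2 * (n * p))).sub
        (integrable_const ((n * p) ^ 2)))
      ((integrable_finsetSum _ fun j _ => hcH N j).const_mul M) hpt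
    have hl : ∫ ω, (2 * (n * p) * (∑ j ∈ F N, A.indicator (fun _ => (1 : ℝ)) (sh j ω)) -
        (n * p) ^ 2) ∂P = (n * p) ^ 2 := by
      rw [integral_sub ((integrable_finsetSum _ fun j _ => hc1 j).const_mul _)
        (integrable_const _), integral_const_mul, integral_finsetSum _ fun j _ => hc1 j]
      simp only [e1, Finset.sum_const, nsmul_eq_mul, integral_const, smul_eq_mul]
      rw [← hn]
      simp only [probReal_univ, one_mul]
      ring
    have hr : ∫ ω, M * ∑ j ∈ F N, H N (sh j ω) ∂P = M * (n * ∫ ω, H N ω ∂P) := by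
      rw [integral_const_mul, integral_finsetSum _ fun j _ => hcH N j]
      simp only [e2, Finset.sum_const, nsmul_eq_mul]
      rw [← hn]
    have hint' : (n * p) ^ 2 ≤ M * (n * ∫ ω, H N ω ∂P) := by
      rw [← hl, ← hr]
      exact hint
    have h3 : ∫ ω, H N ω / n ∂P = (∫ ω, H N ω ∂P) / n := integral_div n _
    rw [h3]
    have h4 : M * (n * ∫ ω, H N ω ∂P) = n ^ 2 * (M * ((∫ ω, H N ω ∂P) / n)) := by
      field_simp
    rw [h4, mul_pow] at hint'
    exact le_of_mul_le_mul_left hint' (by positivity)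
  have hdom : Tendsto (fun N => ∫ ω, H N ω / (F N).card ∂P) atTop (nhds (∫ _, (0 : ℝ) ∂P)) := by
    refine tendsto_integral_of_dominated_convergence (fun _ => |C|) ?_ (integrable_const _) ?_ ?_
    · intro N
      exact ((hHm N).div_const _).aestronglyMeasurable
    · intro N
      refine Eventually.of_forall fun ω => ?_
      rw [norm_div, Real.norm_natCast]
      rcases Nat.eq_zero_or_pos (F N).card with h0 | h0
      · rw [h0]
        simp
      · rw [div_le_iff₀ (by exact_mod_cast h0)]
        refine (hbd N ω).trans ?_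
        exact mul_le_mul_of_nonneg_right (le_abs_self C) (by positivity)
    · exact Eventually.of_forall fun ω => hlim ω
  rw [integral_zero] at hdom
  have hlim2 : Tendsto (fun N => M * ∫ ω, H N ω / (F N).card ∂P) atTop (nhds (M * 0)) :=
    hdom.const_mul M
  rw [mul_zero] at hlim2
  have hp0 : p ^ 2 ≤ 0 := by
    refine ge_of_tendsto hlim2 ?_
    filter_upwards [hF.eventually_gt_atTop 0] with N hN
    exact hmain N hN
  have hp1 : p = 0 := by
    have := sq_nonneg p
    exact pow_eq_zero_iff (two_ne_zero) |>.1 (le_antisymm hp0 this)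
  exact (measureReal_eq_zero_iff).1 hp1

end H97.TP
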